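import Pool.Agent.R772.CC2

/-!
# Invariant families of convex sets and of convex functions on closed affine manifolds

Chern's conjecture says that closed affine manifolds have Euler characteristic zero. A closed
affine manifold with non-zero Euler characteristic has no finite covering with a vector field
without zeros (Poincare and Hopf). Let `Γ \ X` be a closed affine manifold with the latter
property. Then, after a finite covering, there is an invariant affine subspace `H` of positive
dimension which meets the developing image, such that the closed affine manifold developed into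
`H` still has no tangent field without zeros over any finite covering, and such that the following
holds for every subgroup `K` of finite index in the holonomy group of `H`.

1. Let `Φ` map the points of `dev⁻¹(H)` to nonempty convex subsets of `H`, equivariantly under `K`
   and such that `{x | y ∈ Φ x}` is open for every `y`. Then there is a point `x` such that
   `dev x ∈ Φ x`.
2. Every convex set of convex functions on `H` which is invariant under `K` contains a function
   which attains its minimum over `H` at a point of the developing image.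
3. Every chain of convex subsets of `H` which is invariant under `K` (the group may permute its
   members in an arbitrary way) consists of the empty set and `H` only.
4. A quasi-convex function on `H`, with values in an arbitrary linearly ordered set, is constant
   if the order of its values is preserved by `K`. For instance, there is no non-constant convex
   function `F` on `H` such that `F ∘ γ` is a monotone function of `F` for every `γ ∈ K`.
-/

set_option autoImplicit false

open Set Filter Topology

namespace Pool.Agent.Results.MP_1fa9a4_gt.ConvexChains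

/-- A closed affine manifold `Γ \ X` modelled on the vector space `E`: the group `Γ` acts on the
Hausdorff space `X` properly discontinuously and with compact quotient, and the developing map
`dev` is a local homeomorphism to `E` that is equivariant with respect to the affine holonomy
`hol`. -/
structure ClosedAffine (X Γ E : Type) [TopologicalSpace X] [Group Γ] [MulAction Γ X]
    [NormedAddCommGroup E] [NormedSpace ℝ E] (dev : X → E) (hol : Γ →* (E ≃ᵃ[ℝ] E)) : Prop where
  /-- the developing map is a local homeomorphism -/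
  loc : IsLocalHomeomorph dev
  /-- the group acts by homeomorphisms -/
  cont : ∀ γ : Γ, Continuous fun x : X => γ • x
  /-- the developing map is equivariant -/
  equi : ∀ (γ : Γ) (x : X), dev (γ • x) = hol γ (dev x)
  /-- the action is properly discontinuous -/
  pd : ∀ K : Set X, IsCompact K → {γ : Γ | ∃ x ∈ K, γ • x ∈ K}.Finite
  /-- the quotient is compact -/
  cc : ∃ K : Set X, IsCompact K ∧ ∀ x : X, ∃ γ : Γ, ∃ k ∈ K, γ • k = x

variable {X Γ E : Type} [TopologicalSpace X] [Group Γ] [MulAction Γ X] [NormedAddCommGroup E]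
  [NormedSpace ℝ E]

/-- The set `S` is invariant under `K`. -/
def Invariant (hol : Γ →* (E ≃ᵃ[ℝ] E)) (K : Subgroup Γ) (S : Set E) : Prop :=
  ∀ γ ∈ K, ∀ q ∈ S, hol γ q ∈ S

/-- The affine manifold `K \ dev⁻¹(H)`, where `H` is an affine subspace with the direction `V`,
has a continuous vector field without zeros. For `H = E` this is a vector field without zeros on
the covering `K \ X` of `Γ \ X`. -/
def HasField (dev : X → E) (hol : Γ →* (E ≃ᵃ[ℝ] E)) (K : Subgroup Γ) (H : Set E)
    (V : Submodule ℝ E) : Prop :=
  ∃ Z : X → E, ContinuousOn Z {x | dev x ∈ H} ∧ (∀ x, dev x ∈ H → Z x ∈ V ∧ Z x ≠ 0) ∧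
    ∀ γ ∈ K, ∀ x : X, dev x ∈ H → Z (γ • x) = (hol γ).linear (Z x)

/-- Every `K`-equivariant map `Φ` from `dev⁻¹(H)` to the nonempty convex subsets of `H` such that
the sets `{x | y ∈ Φ x}` are open in `dev⁻¹(H)` has a fixed point: `dev x ∈ Φ x` for some `x`. -/
def FixedPoints (dev : X → E) (hol : Γ →* (E ≃ᵃ[ℝ] E)) (K : Subgroup Γ) (H : Set E) : Prop :=
  ∀ Φ : X → Set E, (∀ x, dev x ∈ H → (Φ x).Nonempty ∧ Convex ℝ (Φ x) ∧ Φ x ⊆ H) →
    (∀ γ ∈ K, ∀ x, dev x ∈ H → ∀ y ∈ Φ x, hol γ y ∈ Φ (γ • x)) →
    (∀ x, dev x ∈ H → ∀ y ∈ Φ x, ∀ᶠ x' in 𝓝[{x' | dev x' ∈ H}] x, y ∈ Φ x') →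
    ∃ x, dev x ∈ H ∧ dev x ∈ Φ x

/-- Every nonempty `K`-invariant convex set of convex functions on `H` contains a function which
attains its minimum over `H` at a point of the developing image. -/
def AttainsMinimum (dev : X → E) (hol : Γ →* (E ≃ᵃ[ℝ] E)) (K : Subgroup Γ) (H : Set E) : Prop :=
  ∀ 𝓕 : Set (E → ℝ), 𝓕.Nonempty → Convex ℝ 𝓕 → (∀ F ∈ 𝓕, ConvexOn ℝ H F) →
    (∀ γ ∈ K, ∀ F ∈ 𝓕, ∃ F' ∈ 𝓕, ∀ p ∈ H, F' p = F (hol γ p)) →
    ∃ F ∈ 𝓕, ∃ x, dev x ∈ H ∧ ∀ p ∈ H, F (dev x) ≤ F p

/-- Every `K`-invariant chain of convex subsets of `H` consists of the empty set and `H` only. -/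
def NoChain (hol : Γ →* (E ≃ᵃ[ℝ] E)) (K : Subgroup Γ) (H : Set E) : Prop :=
  ∀ 𝒞 : Set (Set E), IsChain (· ⊆ ·) 𝒞 → (∀ C ∈ 𝒞, Convex ℝ C ∧ C ⊆ H) →
    (∀ γ ∈ K, ∀ C ∈ 𝒞, hol γ '' C ∈ 𝒞) → ∀ C ∈ 𝒞, C = ∅ ∨ C = H

/-- Quasi-convex functions on `H` with values in linearly ordered sets, such that the order of the
values is preserved by `K`, are constant. -/
def NoOrder (hol : Γ →* (E ≃ᵃ[ℝ] E)) (K : Subgroup Γ) (H : Set E) : Prop :=
  ∀ (L : Type) [LinearOrder L] (F : E → L), QuasiconvexOn ℝ H F →
    (∀ γ ∈ K, ∀ p ∈ H, ∀ q ∈ H, F p ≤ F q → F (hol γ p) ≤ F (hol γ q)) →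
    ∀ p ∈ H, ∀ q ∈ H, F p = F q

/-- **Theorem.** Let `Γ \ X` be a closed affine manifold of positive dimension, with `X` connected,
such that no finite covering of it has a vector field without zeros (this is the case if its Euler
characteristic is not zero). Then there are a subgroup `G` of finite index and a `G`-invariant
affine subspace `H` of positive dimension, which meets the developing image, such that for every
subgroup `K` of finite index in `G`: the closed affine manifold `K \ dev⁻¹(H)` has no field without
zeros, (1) equivariant maps to the convex subsets of `H` with open lower sections have fixed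
points, (2) invariant convex sets of convex functions on `H` contain a function which attains its
minimum at a point of the developing image, (3) invariant chains of convex subsets of `H` are
trivial and (4) quasi-convex functions on `H` the order of the values of which is preserved by `K`
are constant. -/
theorem result [T2Space X] [ConnectedSpace X] [FiniteDimensional ℝ E] [Nontrivial E]
    {dev : X → E} {hol : Γ →* (E ≃ᵃ[ℝ] E)} (D : ClosedAffine X Γ E dev hol)
    (hno : ∀ K : Subgroup Γ, K.FiniteIndex → ¬ HasField dev hol K univ ⊤) :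
    ∃ (G : Subgroup Γ) (H : AffineSubspace ℝ E), G.FiniteIndex ∧ Invariant hol G H ∧
      H.direction ≠ ⊥ ∧ (∃ x, dev x ∈ H) ∧
      ∀ K ≤ G, K.FiniteIndex →
        ¬ HasField dev hol K H H.direction ∧
        FixedPoints dev hol K H ∧ AttainsMinimum dev hol K H ∧ NoChain hol K H ∧
        NoOrder hol K H := by
  have D' : Pool.Agent.W689.Ch.AffMfd X Γ E dev hol := ⟨D.loc, D.cont, D.equi, D.pd, D.cc⟩
  obtain ⟨G, H, x₀, m⟩ := Pool.Agent.Y150.Ch.exists_min D' (fun K hK ⟨Z, h1, h2, h3⟩ =>
    hno K hK ⟨Z, h1, fun x _ => ⟨trivial, (h2 x trivial).2⟩, fun γ hγ x _ => h3 ⟨γ, hγ⟩ x trivial⟩)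
  refine ⟨G, H, m.fin, m.inv, m.dir, ⟨x₀, m.mem⟩, ?_⟩
  intro K hK hKf
  refine ⟨fun ⟨Z, h1, h2, h3⟩ => m.fld K hK hKf ⟨Z, h1, h2, fun γ x hx => h3 γ.1 γ.2 x hx⟩,
    ?_, ?_, ?_, ?_⟩
  · intro Φ h1 h2 h3
    exact Pool.Agent.R772.CC.map_core D' m hK hKf (fun x hx => (h1 x hx).1)
      (fun x hx => (h1 x hx).2.1) (fun x hx => (h1 x hx).2.2) h2
      (fun x hx y hy => eventually_nhdsWithin_iff.1 (h3 x hx y hy))
  · intro 𝓕 h1 h2 h3 h4
    exact Pool.Agent.R772.CC.fun_core D' m hK hKf h1 h2 h3 h4
  · intro 𝒞 h1 h2 h3
    exact Pool.Agent.R772.CC.chain_core D' m hK hKf (fun C hC => (h2 C hC).1)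
      (fun C hC => (h2 C hC).2) h1 h3
  · intro L _ F h1 h2
    exact Pool.Agent.R772.CC.quasi_core D' m hK hKf (fun p _ => h1 (F p)) h2

end Pool.Agent.Results.MP_1fa9a4_gt.ConvexChains
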