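import Pool.Agent.R772.CC5

/-!
# Displacement vectors that surround a point of a closed affine manifold

Chern's conjecture says that closed affine manifolds have Euler characteristic zero. A closed
affine manifold with non-zero Euler characteristic has no finite covering with a vector field
without zeros (Poincare and Hopf). Let `Γ \ X` be a closed affine manifold with the latter
property, and `K` a subgroup of finite index of `Γ`.

1. Let `C` be a nonempty set of deck transformations, invariant under conjugation with elements of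
   `K`, and let `f(γ, x)`, `γ ∈ C`, be any continuous functions with `f(δγδ⁻¹, δx) = f(γ, x)` for
   `δ ∈ K` which are locally finite: near every point only finitely many of them take values `≤ r`.
   For instance `f(γ, x)` is the distance of `x` to `γx` for an invariant metric. Then there is a
   point `x` such that the origin is a convex combination of the displacement vectors
   `dev (γx) - dev x` of the nearest translates `γx` of `x`, that is, for `γ ∈ C` with minimal
   `f(γ, x)`.
2. The same holds for arbitrary equivariant families of vector fields `τ_i` on `X` (instead of the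
   displacement vectors `τ_γ`, `γ ∈ C`), indexed by a `K`-set.
3. Every nonempty convex set of continuous vector fields (or of continuous one-forms) on `X` which
   is invariant under `K` contains one with a zero.

Moreover, after a finite covering there is an invariant affine subspace `H` of positive dimension
which meets the developing image, such that all this holds for the closed affine manifold
`K \ dev⁻¹(H)`, and such that the following is true for all subgroups `K` of finite index.

4. Let `F` be a `C¹`-function on `H` such that `F ∘ γ = c_γ F + d_γ` for all `γ ∈ K`, with numbers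
   `c_γ`, `d_γ`. If the set of the critical points of `F` is empty or star-shaped then `F` is
   constant. In particular, a quadratic function `F` with this property is constant.
-/

set_option autoImplicit false

open Set Filter Topology

namespace Pool.Agent.Results.MP_1fa9a4_gt.SurroundingDisplacements

/-- A closed affine manifold `Γ \ X` modelled on the vector space `E`: the group `Γ` acts on the
Hausdorff space `X` properly discontinuously and with compact quotient, and the developing map
`dev` is a local homeomorphism to `E` that is equivariant with respect to the affine holonomy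
`hol`. -/
structure ClosedAffine (X Γ E : Type) [TopologicalSpace X] [Group Γ] [MulAction Γ X]
    [NormedAddCommGroup E] [NormedSpace ℝ E] (dev : X → E) (hol : Γ →* (E ≃ᵃ[ℝ] E)) : Prop where
  /-- the developing map is a local homeomorphism -/
  loc : IsLocalHomeomorph dev
  /-- the group acts by homeomorphisms -/
  cont : ∀ γ : Γ, Continuous fun x : X => γ • x
  /-- the developing map is equivariant -/
  equi : ∀ (γ : Γ) (x : X), dev (γ • x) = hol γ (dev x)
  /-- the action is properly discontinuous -/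
  pd : ∀ K : Set X, IsCompact K → {γ : Γ | ∃ x ∈ K, γ • x ∈ K}.Finite
  /-- the quotient is compact -/
  cc : ∃ K : Set X, IsCompact K ∧ ∀ x : X, ∃ γ : Γ, ∃ k ∈ K, γ • k = x

variable {X Γ E : Type} [TopologicalSpace X] [Group Γ] [MulAction Γ X] [NormedAddCommGroup E]
  [NormedSpace ℝ E]

/-- The linear holonomy. -/
def lin (hol : Γ →* (E ≃ᵃ[ℝ] E)) (γ : Γ) : E →ₗ[ℝ] E := (hol γ).linear

/-- The set `S` is invariant under `K`. -/
def Invariant (hol : Γ →* (E ≃ᵃ[ℝ] E)) (K : Subgroup Γ) (S : Set E) : Prop :=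
  ∀ γ ∈ K, ∀ q ∈ S, hol γ q ∈ S

/-- The part of the cover which is developed into `H`. -/
def Over (dev : X → E) (H : Set E) : Set X := {x | dev x ∈ H}

/-- The affine manifold `K \ dev⁻¹(H)`, where `H` is an affine subspace with the direction `V`,
has a continuous vector field without zeros. For `H = E` this is a vector field without zeros on
the covering `K \ X` of `Γ \ X`. -/
def HasField (dev : X → E) (hol : Γ →* (E ≃ᵃ[ℝ] E)) (K : Subgroup Γ) (H : Set E)
    (V : Submodule ℝ E) : Prop :=
  ∃ Z : X → E, ContinuousOn Z (Over dev H) ∧ (∀ x ∈ Over dev H, Z x ∈ V ∧ Z x ≠ 0) ∧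
    ∀ γ ∈ K, ∀ x ∈ Over dev H, Z (γ • x) = lin hol γ (Z x)

/-- The properties of the closed affine manifold `K \ dev⁻¹(H)`; `V` is the direction of `H`. -/
structure CriticalPoints (dev : X → E) (hol : Γ →* (E ≃ᵃ[ℝ] E)) (K G : Subgroup Γ) (H : Set E)
    (V : Submodule ℝ E) : Prop where
  /-- Let `C` be a nonempty subset of `G`, invariant under conjugation with elements of `K`, and
  `f γ`, `γ ∈ C`, an equivariant locally finite family of functions. Then for some point `x` the
  origin is a convex combination of the displacement vectors `hol γ (dev x) - dev x` for the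
  `γ ∈ C` with minimal `f γ x`. -/
  displacements : ∀ (C : Set Γ) (f : Γ → X → ℝ), C.Nonempty → C ⊆ G →
    (∀ δ ∈ K, ∀ γ ∈ C, δ * γ * δ⁻¹ ∈ C) →
    (∀ γ ∈ C, ContinuousOn (f γ) (Over dev H)) →
    (∀ δ ∈ K, ∀ γ ∈ C, ∀ x ∈ Over dev H, f (δ * γ * δ⁻¹) (δ • x) = f γ x) →
    (∀ x ∈ Over dev H, ∀ r : ℝ, ∃ U ∈ 𝓝[Over dev H] x,
      {γ | γ ∈ C ∧ ∃ y ∈ U, y ∈ Over dev H ∧ f γ y ≤ r}.Finite) →
    ∃ x ∈ Over dev H, (0 : E) ∈ convexHull ℝ
      {v | ∃ γ ∈ C, (∀ γ' ∈ C, f γ x ≤ f γ' x) ∧ v = hol γ (dev x) - dev x}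
  /-- The same for an equivariant family of vector fields `τ i`, where `i` runs through an
  arbitrary `K`-set. -/
  surrounded : ∀ (I : Type) [MulAction K I] [Nonempty I] (τ : I → X → E) (f : I → X → ℝ),
    (∀ i, ContinuousOn (τ i) (Over dev H) ∧ ∀ x ∈ Over dev H, τ i x ∈ V) →
    (∀ (γ : K) (i : I), ∀ x ∈ Over dev H, τ (γ • i) (γ.1 • x) = lin hol γ.1 (τ i x)) →
    (∀ i, ContinuousOn (f i) (Over dev H)) →
    (∀ (γ : K) (i : I), ∀ x ∈ Over dev H, f (γ • i) (γ.1 • x) = f i x) →
    (∀ x ∈ Over dev H, ∀ r : ℝ, ∃ U ∈ 𝓝[Over dev H] x,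
      {i | ∃ y ∈ U, y ∈ Over dev H ∧ f i y ≤ r}.Finite) →
    ∃ x ∈ Over dev H, (0 : E) ∈ convexHull ℝ {v | ∃ i, (∀ j, f i x ≤ f j x) ∧ τ i x = v}
  /-- Every nonempty `K`-invariant convex set of continuous vector fields on `dev⁻¹(H)` contains a
  field with a zero. -/
  fields : ∀ 𝒱 : Set (X → E), 𝒱.Nonempty → Convex ℝ 𝒱 →
    (∀ Y ∈ 𝒱, ContinuousOn Y (Over dev H) ∧ ∀ x ∈ Over dev H, Y x ∈ V) →
    (∀ γ ∈ K, ∀ Y ∈ 𝒱, ∃ Y' ∈ 𝒱, ∀ x ∈ Over dev H, lin hol γ (Y x) = Y' (γ • x)) →
    ∃ Y ∈ 𝒱, ∃ x ∈ Over dev H, Y x = 0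
  /-- Every nonempty `K`-invariant convex set of continuous one-forms on `dev⁻¹(H)` contains a
  form with a zero. -/
  forms : ∀ 𝒲 : Set (X → E →L[ℝ] ℝ), 𝒲.Nonempty → Convex ℝ 𝒲 →
    (∀ ω ∈ 𝒲, ContinuousOn ω (Over dev H)) →
    (∀ γ ∈ K, ∀ ω ∈ 𝒲, ∃ ω' ∈ 𝒲, ∀ x ∈ Over dev H, ∀ v ∈ V,
      ω' x v = ω (γ • x) (lin hol γ v)) →
    ∃ ω ∈ 𝒲, ∃ x ∈ Over dev H, ∀ v ∈ V, ω x v = 0

/-- The critical points of the restriction of `F` to `H`. -/
def Crit (F : E → ℝ) (H : Set E) (V : Submodule ℝ E) : Set E :=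
  {p | p ∈ H ∧ ∀ v ∈ V, fderiv ℝ F p v = 0}

/-- `F ∘ γ = c_γ F + d_γ` on `H`, for all `γ ∈ K`. -/
def SemiInvariant (hol : Γ →* (E ≃ᵃ[ℝ] E)) (K : Subgroup Γ) (H : Set E) (F : E → ℝ) : Prop :=
  ∀ γ ∈ K, ∃ c d : ℝ, ∀ p ∈ H, F (hol γ p) = c * F p + d

/-- Semi-invariant functions on `H` are constant if their set of critical points is empty or
star-shaped, or if they are quadratic. -/
structure NoSemiInvariant (hol : Γ →* (E ≃ᵃ[ℝ] E)) (K : Subgroup Γ) (H : Set E)
    (V : Submodule ℝ E) : Prop where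
  star : ∀ F : E → ℝ, ContDiff ℝ 1 F → SemiInvariant hol K H F →
    (Crit F H V = ∅ ∨ ∃ p ∈ Crit F H V, StarConvex ℝ p (Crit F H V)) →
    ∀ p ∈ H, ∀ q ∈ H, F p = F q
  quadratic : ∀ (B : E →L[ℝ] E →L[ℝ] ℝ) (l : E →L[ℝ] ℝ),
    SemiInvariant hol K H (fun p => B p p + l p) →
    ∀ p ∈ H, ∀ q ∈ H, B p p + l p = B q q + l q

/-- **Theorem.** Let `Γ \ X` be a closed affine manifold of positive dimension, with `X` connected,
such that no finite covering of it has a vector field without zeros (this is the case if its Euler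
characteristic is not zero). Then `CriticalPoints` holds for all finite coverings `K \ X`.
Moreover, there are a subgroup `G` of finite index and a `G`-invariant affine subspace `H` of
positive dimension, which meets the developing image, such that for every subgroup `K` of finite
index in `G` the closed affine manifold `K \ dev⁻¹(H)` has no field without zeros,
`CriticalPoints` holds for it, and semi-invariant functions on `H` are constant if their set of
critical points is empty or star-shaped, or if they are quadratic. -/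
theorem result [T2Space X] [ConnectedSpace X] [FiniteDimensional ℝ E] [Nontrivial E]
    {dev : X → E} {hol : Γ →* (E ≃ᵃ[ℝ] E)} (D : ClosedAffine X Γ E dev hol)
    (hno : ∀ K : Subgroup Γ, K.FiniteIndex → ¬ HasField dev hol K univ ⊤) :
    (∀ K : Subgroup Γ, K.FiniteIndex → CriticalPoints dev hol K ⊤ univ ⊤) ∧
    ∃ (G : Subgroup Γ) (H : AffineSubspace ℝ E), G.FiniteIndex ∧ Invariant hol G H ∧
      H.direction ≠ ⊥ ∧ (∃ x, dev x ∈ H) ∧
      ∀ K ≤ G, K.FiniteIndex → ¬ HasField dev hol K H H.direction ∧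
        CriticalPoints dev hol K G H H.direction ∧ NoSemiInvariant hol K H H.direction := by
  have D' : Pool.Agent.W689.Ch.AffMfd X Γ E dev hol := ⟨D.loc, D.cont, D.equi, D.pd, D.cc⟩
  have hfull : ∀ K : Subgroup Γ, K.FiniteIndex →
      ¬ Pool.Agent.TH845.Mk.Fld dev (hol.comp K.subtype) ⊤ := fun K hK ⟨Z, h1, h2, h3⟩ =>
    hno K hK ⟨Z, h1, fun x _ => ⟨trivial, (h2 x trivial).2⟩, fun γ hγ x _ => h3 ⟨γ, hγ⟩ x trivial⟩
  have gen : ∀ (H : AffineSubspace ℝ E) (K G : Subgroup Γ) (x₀ : X), K ≤ G → K.FiniteIndex →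
      dev x₀ ∈ H → (∀ γ ∈ G, ∀ q ∈ H, hol γ q ∈ H) →
      ¬ Pool.Agent.TH845.Mk.Fld dev (hol.comp K.subtype) H →
      CriticalPoints dev hol K G H H.direction := by
    intro H K G x₀ hKG hK hx hG hF
    refine ⟨?_, ?_, ?_, ?_⟩
    · intro C f h1 h2 h3 h4 h5 h6
      exact Pool.Agent.R772.CC.disp_gen D' hKG hK hx hG hF h1 h2 h3 h4
        (fun δ hδ γ hγ x hx => h5 δ hδ γ hγ x hx) h6
    · intro I _ _ τ f h1 h2 h3 h4 h5
      exact Pool.Agent.R772.CC.indexed_gen D' hK hx (fun γ hγ => hG γ (hKG hγ)) hF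
        (fun i => (h1 i).1) (fun i x hx => (h1 i).2 x hx) h2 h3 h4 h5
    · intro 𝒱 h1 h2 h3 h4
      exact Pool.Agent.R772.CC.vec_gen D' hK hx (fun γ hγ => hG γ (hKG hγ)) hF h1 h2
        (fun Y hY => (h3 Y hY).1) (fun Y hY => (h3 Y hY).2) h4
    · intro 𝒲 h1 h2 h3 h4
      exact Pool.Agent.R772.CC.covec_gen D' hK hx (fun γ hγ => hG γ (hKG hγ)) hF h1 h2 h3 h4
  obtain ⟨x₁⟩ := (inferInstance : Nonempty X)
  refine ⟨fun K hK => ?_, ?_⟩
  · have h := gen ⊤ K ⊤ x₁ le_top hK (AffineSubspace.mem_top ℝ E _)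
      (fun γ _ q _ => AffineSubspace.mem_top ℝ E _) (hfull K hK)
    rw [AffineSubspace.direction_top] at h
    exact h
  · obtain ⟨G, H, x₀, m⟩ := Pool.Agent.Y150.Ch.exists_min D' hfull
    refine ⟨G, H, m.fin, m.inv, m.dir, ⟨x₀, m.mem⟩, ?_⟩
    intro K hK hKf
    refine ⟨fun ⟨Z, h1, h2, h3⟩ => m.fld K hK hKf ⟨Z, h1, h2, fun γ x hx => h3 γ.1 γ.2 x hx⟩,
      gen H K G x₀ hK hKf m.mem m.inv (m.fld K hK hKf), ⟨?_, ?_⟩⟩
    · intro F hF hs hcrit
      refine Pool.Agent.R772.CC.semi_fun D' m hK hKf hF hs fun q hq => ?_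
      rcases hcrit with h | ⟨p, hp, hst⟩
      · have h1 : q ∈ Crit F H H.direction := hq
        rw [h] at h1
        exact absurd h1 (notMem_empty q)
      · exact ⟨p, hp, hst⟩
    · intro B l hs
      exact Pool.Agent.R772.CC.semi_quad D' m hK hKf B l hs

end Pool.Agent.Results.MP_1fa9a4_gt.SurroundingDisplacements
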