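import Pool.Agent.R772.TT9

/-!
# Closed affine manifolds whose fundamental group acts on trees or other curved spaces

Chern's conjecture says that closed affine manifolds have Euler characteristic zero. A closed
affine manifold with non-zero Euler characteristic has no finite covering with a vector field
without zeros (Poincare and Hopf). Let `Γ \ X` be a closed affine manifold with the latter
property, and let `K` be a subgroup of finite index of `Γ`.

1. If `K` acts on a tree then there is a vertex whose stabilizer in `K` leaves neither a half-line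
   nor a half-space invariant under the linear holonomy. In other words, Chern's conjecture holds
   for the closed affine manifolds whose fundamental group (or a subgroup of finite index of it)
   is the fundamental group of a graph of groups such that the linear holonomy of each vertex
   group leaves a half-line or a half-space invariant. For instance an amalgamated product or an
   HNN extension of such groups, over an arbitrary subgroup.
2. More generally, let `S_a` be vector fields without zeros on `X`, for the vertices `a` of the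
   tree, such that `K` permutes them up to positive factors. Then there is an edge `ab` such that
   `S_a` and `S_b` are opposite at some point of `X`, and such that they are proportional with a
   positive factor at some point of `X`.
3. Let `K` act by isometries on finitely many spaces `Y_i` which are Gromov hyperbolic or CAT(0)
   (they need not be locally compact, and the action need not be proper), and let the nonempty
   sets `Q(y)` of vector fields on `X`, for `y` in the product of the `Y_i`, be permuted by `K`.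
   Then there are a point `x` of `X` and a set `C` of points `y`, the projection of which to `Y_i`
   has diameter at most `R_i`, such that the values at `x` of the fields from the `Q(y)`, `y ∈ C`,
   contain the origin in their convex hull. Here `R_i` depends only on the hyperbolicity constant,
   and is an arbitrary positive number for the CAT(0) spaces.
4. If nonempty sets `P(y)` of points of the affine space are permuted by `K` then, for some set
   `C` as in 3, the developing image meets the convex hull of the union of the `P(y)`, `y ∈ C`.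

Moreover, after a finite covering there is an invariant affine subspace `H` of positive dimension
which meets the developing image, such that all this holds for the closed affine manifold
`K \ dev⁻¹(H)`, for all subgroups `K` of finite index.
-/

set_option autoImplicit false

open Set Filter Topology

namespace Pool.Agent.Results.MP_1fa9a4_gt.TreesAndHyperbolicSpaces

/-- A closed affine manifold `Γ \ X` modelled on the vector space `E`: the group `Γ` acts on the
Hausdorff space `X` properly discontinuously and with compact quotient, and the developing map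
`dev` is a local homeomorphism to `E` that is equivariant with respect to the affine holonomy
`hol`. -/
structure ClosedAffine (X Γ E : Type) [TopologicalSpace X] [Group Γ] [MulAction Γ X]
    [NormedAddCommGroup E] [NormedSpace ℝ E] (dev : X → E) (hol : Γ →* (E ≃ᵃ[ℝ] E)) : Prop where
  /-- the developing map is a local homeomorphism -/
  loc : IsLocalHomeomorph dev
  /-- the group acts by homeomorphisms -/
  cont : ∀ γ : Γ, Continuous fun x : X => γ • x
  /-- the developing map is equivariant -/
  equi : ∀ (γ : Γ) (x : X), dev (γ • x) = hol γ (dev x)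
  /-- the action is properly discontinuous -/
  pd : ∀ K : Set X, IsCompact K → {γ : Γ | ∃ x ∈ K, γ • x ∈ K}.Finite
  /-- the quotient is compact -/
  cc : ∃ K : Set X, IsCompact K ∧ ∀ x : X, ∃ γ : Γ, ∃ k ∈ K, γ • k = x

variable {X Γ E : Type} [TopologicalSpace X] [Group Γ] [MulAction Γ X] [NormedAddCommGroup E]
  [NormedSpace ℝ E]

/-- The linear holonomy. -/
def lin (hol : Γ →* (E ≃ᵃ[ℝ] E)) (γ : Γ) : E →ₗ[ℝ] E := (hol γ).linear

/-- The set `S` is invariant under `K`. -/
def Invariant (hol : Γ →* (E ≃ᵃ[ℝ] E)) (K : Subgroup Γ) (S : Set E) : Prop :=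
  ∀ γ ∈ K, ∀ q ∈ S, hol γ q ∈ S

/-- The part of the cover which is developed into `H`. -/
def Over (dev : X → E) (H : Set E) : Set X := {x | dev x ∈ H}

/-- The affine manifold `K \ dev⁻¹(H)`, where `H` is an affine subspace with the direction `V`,
has a continuous vector field without zeros. For `H = E` this is a vector field without zeros on
the covering `K \ X` of `Γ \ X`. -/
def HasField (dev : X → E) (hol : Γ →* (E ≃ᵃ[ℝ] E)) (K : Subgroup Γ) (H : Set E)
    (V : Submodule ℝ E) : Prop :=
  ∃ Z : X → E, ContinuousOn Z (Over dev H) ∧ (∀ x ∈ Over dev H, Z x ∈ V ∧ Z x ≠ 0) ∧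
    ∀ γ ∈ K, ∀ x ∈ Over dev H, Z (γ • x) = lin hol γ (Z x)

/-- The first condition holds for geodesic Gromov hyperbolic spaces and large `R` (take for `m`
the midpoint of `p` and `q`), and for the vertices of a tree and `R > 1` (with `δ = 1 / 2`). The
second condition holds for CAT(0) spaces and all `R > 0`; it is the inequality of Bruhat and
Tits. -/
def Curved (Y : Type) [PseudoMetricSpace Y] (R : ℝ) : Prop :=
  (∃ δ : ℝ, 2 * δ < R ∧ ∀ p q : Y, ∃ m : Y, ∀ r : Y,
    dist r m ≤ max (dist r p) (dist r q) - dist p q / 2 + δ) ∨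
  (0 < R ∧ ∀ p q : Y, ∃ m : Y, ∀ r : Y,
    dist r m ^ 2 ≤ (dist r p ^ 2 + dist r q ^ 2) / 2 - dist p q ^ 2 / 4)

/-- The properties of the actions of `K` on trees and on other spaces, for the closed affine
manifold `K \ dev⁻¹(H)`; `V` is the direction of `H`. -/
structure Actions (dev : X → E) (hol : Γ →* (E ≃ᵃ[ℝ] E)) (K : Subgroup Γ) (H : Set E)
    (V : Submodule ℝ E) : Prop where
  /-- Let `K` act on a tree. There is a vertex `a` such that the stabilizer of `a` leaves no
  half-line of `V` and no half-space of `V` invariant. -/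
  stabilizers : ∀ (T : Type) [MulAction K T] (G : SimpleGraph T), G.IsTree →
    (∀ (γ : K) (a b : T), G.Adj a b → G.Adj (γ • a) (γ • b)) →
    ∃ a : T,
      (∀ u ∈ V, u ≠ 0 → ∃ γ : K, γ • a = a ∧ ∀ c : ℝ, 0 < c → lin hol γ.1 u ≠ c • u) ∧
      ∀ l : E →L[ℝ] ℝ, (∃ u ∈ V, l u ≠ 0) → ∃ γ : K, γ • a = a ∧
        ∀ c : ℝ, 0 < c → ∃ u ∈ V, l (lin hol γ.1 u) ≠ c * l u
  /-- Let `K` act on a tree, and let `S a` be vector fields without zeros, for the vertices `a`,
  which are permuted by `K` up to positive factors. Then for some edge, the two fields are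
  opposite at some point, and they are proportional with a positive factor at some point. -/
  edges : ∀ (T : Type) [MulAction K T] (G : SimpleGraph T), G.IsTree →
    (∀ (γ : K) (a b : T), G.Adj a b → G.Adj (γ • a) (γ • b)) →
    ∀ S : T → X → E, (∀ a, ContinuousOn (S a) (Over dev H)) →
    (∀ a, ∀ x ∈ Over dev H, S a x ∈ V ∧ S a x ≠ 0) →
    (∀ (γ : K) (a : T), ∃ c : ℝ, 0 < c ∧
      ∀ x ∈ Over dev H, lin hol γ.1 (S a x) = c • S (γ • a) (γ.1 • x)) →
    ∃ a b, G.Adj a b ∧ (∃ x ∈ Over dev H, ∃ c : ℝ, 0 < c ∧ S b x = -(c • S a x)) ∧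
      ∃ x ∈ Over dev H, ∃ c : ℝ, 0 < c ∧ S b x = c • S a x
  /-- Let `K` act by isometries on finitely many hyperbolic or CAT(0) spaces `Y i`, and let the
  nonempty sets `Q y` of vector fields, for `y` in the product of the `Y i`, be permuted by `K`.
  Then for some point `x` and some small set `C` the values at `x` of the fields from `Q y`,
  `y ∈ C`, contain the origin in their convex hull. -/
  fields : ∀ (ι : Type) [Finite ι] (Y : ι → Type) [∀ i, PseudoMetricSpace (Y i)]
    [∀ i, Nonempty (Y i)] [∀ i, MulAction K (Y i)] (R : ι → ℝ),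
    (∀ (i : ι) (γ : K) (y z : Y i), dist (γ • y) (γ • z) = dist y z) →
    (∀ i, Curved (Y i) (R i)) →
    ∀ Q : (∀ i, Y i) → Set (X → E), (∀ y, (Q y).Nonempty) →
    (∀ y, ∀ Z ∈ Q y, ContinuousOn Z (Over dev H) ∧ ∀ x ∈ Over dev H, Z x ∈ V) →
    (∀ (γ : K) (y : ∀ i, Y i), ∀ Z ∈ Q y, ∃ Z' ∈ Q (γ • y),
      ∀ x ∈ Over dev H, lin hol γ.1 (Z x) = Z' (γ.1 • x)) →
    ∃ x ∈ Over dev H, ∃ C : Set (∀ i, Y i),
      (∀ y ∈ C, ∀ z ∈ C, ∀ i, dist (y i) (z i) ≤ R i) ∧
      (0 : E) ∈ convexHull ℝ {u | ∃ y ∈ C, ∃ Z ∈ Q y, u = Z x}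
  /-- The same for nonempty sets `P y` of points of `H` which are permuted by `K`: some point of
  the developing image is in the convex hull of the union of the `P y`, `y ∈ C`. -/
  points : ∀ (ι : Type) [Finite ι] (Y : ι → Type) [∀ i, PseudoMetricSpace (Y i)]
    [∀ i, Nonempty (Y i)] [∀ i, MulAction K (Y i)] (R : ι → ℝ),
    (∀ (i : ι) (γ : K) (y z : Y i), dist (γ • y) (γ • z) = dist y z) →
    (∀ i, Curved (Y i) (R i)) →
    ∀ P : (∀ i, Y i) → Set E, (∀ y, (P y).Nonempty) → (∀ y, P y ⊆ H) →
    (∀ (γ : K) (y : ∀ i, Y i), ∀ q ∈ P y, hol γ.1 q ∈ P (γ • y)) →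
    ∃ x ∈ Over dev H, ∃ C : Set (∀ i, Y i),
      (∀ y ∈ C, ∀ z ∈ C, ∀ i, dist (y i) (z i) ≤ R i) ∧ dev x ∈ convexHull ℝ (⋃ y ∈ C, P y)

/-- **Theorem.** Let `Γ \ X` be a closed affine manifold of positive dimension, with `X` connected,
such that no finite covering of it has a vector field without zeros (this is the case if its Euler
characteristic is not zero). Then `Actions` holds for all finite coverings `K \ X`. Moreover,
there are a subgroup `G` of finite index and a `G`-invariant affine subspace `H` of positive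
dimension, which meets the developing image, such that for every subgroup `K` of finite index in
`G` the closed affine manifold `K \ dev⁻¹(H)` has no field without zeros, and `Actions` holds for
it. -/
theorem result [T2Space X] [ConnectedSpace X] [FiniteDimensional ℝ E] [Nontrivial E]
    {dev : X → E} {hol : Γ →* (E ≃ᵃ[ℝ] E)} (D : ClosedAffine X Γ E dev hol)
    (hno : ∀ K : Subgroup Γ, K.FiniteIndex → ¬ HasField dev hol K univ ⊤) :
    (∀ K : Subgroup Γ, K.FiniteIndex → Actions dev hol K univ ⊤) ∧
    ∃ (G : Subgroup Γ) (H : AffineSubspace ℝ E), G.FiniteIndex ∧ Invariant hol G H ∧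
      H.direction ≠ ⊥ ∧ (∃ x, dev x ∈ H) ∧
      ∀ K ≤ G, K.FiniteIndex → ¬ HasField dev hol K H H.direction ∧
        Actions dev hol K H H.direction := by
  have D' : Pool.Agent.W689.Ch.AffMfd X Γ E dev hol := ⟨D.loc, D.cont, D.equi, D.pd, D.cc⟩
  have hfull : ∀ K : Subgroup Γ, K.FiniteIndex →
      ¬ Pool.Agent.TH845.Mk.Fld dev (hol.comp K.subtype) ⊤ := fun K hK ⟨Z, h1, h2, h3⟩ =>
    hno K hK ⟨Z, h1, fun x _ => ⟨trivial, (h2 x trivial).2⟩, fun γ hγ x _ => h3 ⟨γ, hγ⟩ x trivial⟩
  have hloc : ∀ (K : Subgroup Γ) (Y : Type) [PseudoMetricSpace Y] [Nonempty Y] [MulAction K Y]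
      (R : ℝ), (∀ (γ : K) (y z : Y), dist (γ • y) (γ • z) = dist y z) → Curved Y R →
      Pool.Agent.R772.TT.Loc K (fun y z : Y => dist y z ≤ R) := by
    intro K Y _ _ _ R hd hY
    rcases hY with ⟨δ, h1, h2⟩ | ⟨h1, h2⟩
    · obtain ⟨φ, κ, h⟩ := Pool.Agent.R772.TT.ker_hyp hd h1 h2
      exact Pool.Agent.R772.TT.loc_ker h
    · obtain ⟨φ, κ, h⟩ := Pool.Agent.R772.TT.ker_cat hd h1 h2
      exact Pool.Agent.R772.TT.loc_ker h
  have gen : ∀ (H : AffineSubspace ℝ E) (K : Subgroup Γ) (x₀ : X), K.FiniteIndex →
      dev x₀ ∈ H → (∀ γ ∈ K, ∀ q ∈ H, hol γ q ∈ H) →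
      (∀ K' ≤ K, K'.FiniteIndex → ¬ Pool.Agent.TH845.Mk.Fld dev (hol.comp K'.subtype) H) →
      Actions dev hol K H H.direction := by
    intro H K x₀ hK hx hG hF
    refine ⟨?_, ?_, ?_, ?_⟩
    · intro T _ G hT ha
      exact Pool.Agent.R772.TT.halfrays_gen D' hK hx hG hF hT ha
    · intro T _ G hT ha S h1 h2 h3
      exact Pool.Agent.R772.TT.sign_gen D' hK hx hG hF hT ha h1 h2 h3
    · intro ι _ Y _ _ _ R hd hY Q h1 h2 h3
      obtain ⟨x, hx, C, -, hC, h⟩ := Pool.Agent.R772.TT.loc_gen D' hK hx hG (hF K le_rfl hK)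
        (fun i => hloc K (Y i) (R i) (hd i) (hY i)) h1 (fun y Z hZ => (h2 y Z hZ).1)
        (fun y Z hZ => (h2 y Z hZ).2) h3
      exact ⟨x, hx, C, hC, h⟩
    · intro ι _ Y _ _ _ R hd hY P h1 h2 h3
      obtain ⟨x, hx, C, -, hC, h⟩ := Pool.Agent.R772.TT.points_loc D' hK hx hG (hF K le_rfl hK)
        (fun i => hloc K (Y i) (R i) (hd i) (hY i)) h1 h2 h3
      exact ⟨x, hx, C, hC, h⟩
  obtain ⟨x₁⟩ := (inferInstance : Nonempty X)
  refine ⟨fun K hK => ?_, ?_⟩
  · have h := gen ⊤ K x₁ hK (AffineSubspace.mem_top ℝ E _)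
      (fun γ _ q _ => AffineSubspace.mem_top ℝ E _) (fun K' _ hK' => hfull K' hK')
    rw [AffineSubspace.direction_top] at h
    exact h
  · obtain ⟨G, H, x₀, m⟩ := Pool.Agent.Y150.Ch.exists_min D' hfull
    refine ⟨G, H, m.fin, m.inv, m.dir, ⟨x₀, m.mem⟩, ?_⟩
    intro K hK hKf
    exact ⟨fun ⟨Z, h1, h2, h3⟩ => m.fld K hK hKf ⟨Z, h1, h2, fun γ x hx => h3 γ.1 γ.2 x hx⟩,
      gen H K x₀ hKf m.mem (fun γ hγ => m.inv γ (hK hγ)) (fun K' h1 h2 => m.fld K' (h1.trans hK) h2)⟩

end Pool.Agent.Results.MP_1fa9a4_gt.TreesAndHyperbolicSpaces
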